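import Pool.Agent.N641.VB.Stm

set_option autoImplicit false

/-!
# Project VB: FIN and SET

Types with finitely many divisors split exactly; separating homomorphisms of countable Boolean
algebras.
-/

namespace Pool.Agent.N227.VB

open Pool.Agent.N641.VB

theorem fin_level {M : Type} [AddCommMonoid M] (S : Set (FT M)) (hS : S.Finite)
    (hR : ∀ u ∈ S, Rl u) : ∃ k : ℕ, ∀ u ∈ S, ∀ v ∈ S, u k = v k → u = v := by
  classical
  have h1 : ∀ p : FT M × FT M, ∃ k : ℕ, p.1 ≠ p.2 → p.1 k ≠ p.2 k := by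
    intro p
    by_cases h : p.1 = p.2
    · exact ⟨0, fun h' => absurd h h'⟩
    · obtain ⟨k, hk⟩ := Function.ne_iff.1 h
      exact ⟨k, fun _ => hk⟩
  choose K hK using h1
  have hfin : (S ×ˢ S).Finite := hS.prod hS
  refine ⟨hfin.toFinset.sup K, fun u hu v hv huv => ?_⟩
  by_contra hne
  have hle : K (u, v) ≤ hfin.toFinset.sup K :=
    Finset.le_sup (f := K) (hfin.mem_toFinset.2 (Set.mk_mem_prod hu hv))
  obtain ⟨A, _, mu, a, _, rfl⟩ := hR u hu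
  obtain ⟨A', _, mu', a', _, rfl⟩ := hR v hv
  exact hK (ft mu a, ft mu' a') hne (tp_mono hle huv)

theorem FIN : S_FIN := by
  intro M _ _ A _ mu a u v hm hfin hu hv huv
  obtain ⟨k, hk⟩ := fin_level (Dv (ft mu a)) hfin (fun w hw => hw.1)
  obtain ⟨C, _, nu, c, hnu, rfl⟩ := hu
  obtain ⟨D, _, nu', d, hnu', rfl⟩ := hv
  have h1 : ((tp nu k c, tp nu' k d) : TP M k × TP M k) ∈ (tp mu (k + 1) a).2 := by
    have e : tp mu (k + 1) a = pa (k + 1) (tp nu (k + 1) c) (tp nu' (k + 1) d) :=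
      (congrFun huv (k + 1)).symm
    rw [e]
    refine ⟨(tp nu k c, tp nu k (c \ c)), ⟨c, le_rfl, rfl⟩, (tp nu' k ⊥, tp nu' k (d \ ⊥)),
      ⟨⊥, bot_le, rfl⟩, ?_⟩
    have e1 : pa k (tp nu k c) (tp nu' k ⊥) = tp nu k c := by
      rw [tp_bot hnu' k]
      exact add_zero (tp nu k c)
    have e2 : pa k (tp nu k (c \ c)) (tp nu' k (d \ ⊥)) = tp nu' k d := by
      rw [sdiff_self, tp_bot hnu k, sdiff_bot]
      exact zero_add (tp nu' k d)
    exact Prod.ext e1.symm e2.symm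
  obtain ⟨b, hb, hq⟩ := h1
  have hq1 : tp nu k c = tp mu k b := congrArg Prod.fst hq
  have hq2 : tp nu' k d = tp mu k (a \ b) := congrArg Prod.snd hq
  have hsum : ft mu b + ft mu (a \ b) = ft mu a := by
    rw [← ft_sup hm _ _ disjoint_sdiff_self_right, sup_sdiff_cancel_right hb]
  have m1 : ft mu b ∈ Dv (ft mu a) :=
    ⟨⟨A, _, mu, b, hm, rfl⟩, ft mu (a \ b), ⟨A, _, mu, a \ b, hm, rfl⟩, hsum⟩
  have m2 : ft mu (a \ b) ∈ Dv (ft mu a) :=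
    ⟨⟨A, _, mu, a \ b, hm, rfl⟩, ft mu b, ⟨A, _, mu, b, hm, rfl⟩, by rw [add_comm]; exact hsum⟩
  have m3 : ft nu c ∈ Dv (ft mu a) :=
    ⟨⟨C, _, nu, c, hnu, rfl⟩, ft nu' d, ⟨D, _, nu', d, hnu', rfl⟩, huv⟩
  have m4 : ft nu' d ∈ Dv (ft mu a) :=
    ⟨⟨D, _, nu', d, hnu', rfl⟩, ft nu c, ⟨C, _, nu, c, hnu, rfl⟩, by rw [add_comm]; exact huv⟩
  exact ⟨b, hb, hk _ m1 _ m3 hq1.symm, hk _ m2 _ m4 hq2.symm⟩

end Pool.Agent.N227.VB
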