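import Pool.Agent.N641.VB.Stm

set_option autoImplicit false

/-!
# Project VB: SET

Separating homomorphisms of countable Boolean algebras.
-/

namespace Pool.Agent.N227.VB

open Pool.Agent.N641.VB

theorem sep_one {B : Type} [BooleanAlgebra B] (b : B) (hb : b ≠ ⊥) :
    ∃ h : B → Prop, (∀ x y, h (x ⊔ y) ↔ h x ∨ h y) ∧ (∀ x, h xᶜ ↔ ¬ h x) ∧ h b := by
  have hd : Disjoint (Order.PFilter.principal b : Set B) (Order.Ideal.principal (⊥ : B) : Set B) := by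
    rw [Set.disjoint_left]
    intro x hx hx'
    have h1 : b ≤ x := hx
    have h2 : x ≤ ⊥ := hx'
    exact hb (le_bot_iff.1 (h1.trans h2))
  obtain ⟨J, hJ, -, hJ2⟩ := DistribLattice.prime_ideal_of_disjoint_filter_ideal hd
  refine ⟨fun x => x ∉ J, fun x y => ?_, fun x => ?_, ?_⟩
  · show x ⊔ y ∉ J ↔ x ∉ J ∨ y ∉ J
    rw [Order.Ideal.sup_mem_iff]
    tauto
  · have h1 : x ∈ J ∨ xᶜ ∈ J := hJ.mem_or_compl_mem
    have h2 : ¬ (x ∈ J ∧ xᶜ ∈ J) := fun h => hJ.toIsProper.notMem_of_compl_mem h.2 h.1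
    tauto
  · exact Set.disjoint_left.1 hJ2 (show b ∈ (Order.PFilter.principal b : Set B) from le_rfl)

theorem SET : S_SET := by
  intro B _ _ _
  have : Nonempty {b : B // b ≠ ⊥} := ⟨⟨⊤, top_ne_bot⟩⟩
  obtain ⟨f, hf⟩ := exists_surjective_nat {b : B // b ≠ ⊥}
  choose h h1 h2 h3 using fun n : ℕ => sep_one (f n).1 (f n).2
  refine ⟨h, h1, h2, fun b hb => ?_⟩
  obtain ⟨n, hn⟩ := hf ⟨b, hb⟩
  exact ⟨n, by have := h3 n; rw [hn] at this; exact this⟩

end Pool.Agent.N227.VB
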