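import Pool.Agent.N641.VB.Stm2

set_option autoImplicit false

/-!
# Project VB: ST2

Countably many types of definable Boolean algebras with a measure in the models of a theory without
perfectly many models. The lemmas `meas_term` and `meas_realize` are as in `Pool.Agent.N649.KA.FO`
of helper649.
-/

namespace Pool.Agent.N227.VB.ST2

open Set MeasureTheory FirstOrder FirstOrder.Language
open Pool.Agent.N641.VB

variable {L : FirstOrder.Language.{0, 0}}

section meas

variable {Y : Type} [MeasurableSpace Y]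

/-- values of terms are measurable -/
theorem meas_term {f : Y → L.Structure ℕ}
    (hF : ∀ (n : ℕ) (F : L.Functions n) (v : Fin n → ℕ) (b : ℕ),
      MeasurableSet {y | @Structure.funMap L ℕ (f y) n F v = b}) {β : Type}
    (c : β → ℕ) (t : L.Term β) : ∀ b : ℕ,
      MeasurableSet {y | @Term.realize L ℕ (f y) _ c t = b} := by
  induction t with
  | var i =>
    intro b
    show MeasurableSet {_y : Y | c i = b}
    exact MeasurableSet.const _
  | @func n g ts ih =>
    intro b
    have e1 : {y | @Term.realize L ℕ (f y) _ c (Term.func g ts) = b} =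
        ⋃ v : Fin n → ℕ, ((⋂ i, {y | @Term.realize L ℕ (f y) _ c (ts i) = v i}) ∩
          {y | @Structure.funMap L ℕ (f y) n g v = b}) := by
      ext y
      simp only [mem_iUnion, mem_inter_iff, mem_iInter]
      constructor
      · intro h
        exact ⟨fun i => @Term.realize L ℕ (f y) _ c (ts i), fun i => rfl, h⟩
      · rintro ⟨v, h1, h2⟩
        have h3 : (fun i => @Term.realize L ℕ (f y) _ c (ts i)) = v := funext h1
        show @Structure.funMap L ℕ (f y) n g (fun i => @Term.realize L ℕ (f y) _ c (ts i)) = b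
        rw [h3]
        exact h2
    rw [e1]
    exact MeasurableSet.iUnion fun v => (MeasurableSet.iInter fun i => ih i (v i)).inter
      (hF n g v b)

/-- satisfaction is measurable -/
theorem meas_realize {f : Y → L.Structure ℕ}
    (hF : ∀ (n : ℕ) (F : L.Functions n) (v : Fin n → ℕ) (b : ℕ),
      MeasurableSet {y | @Structure.funMap L ℕ (f y) n F v = b})
    (hf : ∀ (n : ℕ) (R : L.Relations n) (v : Fin n → ℕ),
      MeasurableSet {y | @Structure.RelMap L ℕ (f y) n R v}) {β : Type} {n : ℕ}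
    (φ : L.BoundedFormula β n) (c : β → ℕ) (d : Fin n → ℕ) :
    MeasurableSet {y | @BoundedFormula.Realize L ℕ (f y) _ _ φ c d} := by
  induction φ with
  | falsum =>
    have e1 : {y : Y | @BoundedFormula.Realize L ℕ (f y) _ _ BoundedFormula.falsum c d} = ∅ := rfl
    rw [e1]
    exact MeasurableSet.empty
  | @equal n t1 t2 =>
    have e1 : {y : Y | @BoundedFormula.Realize L ℕ (f y) _ _ (BoundedFormula.equal t1 t2) c d} =
        ⋃ b : ℕ, ({y | @Term.realize L ℕ (f y) _ (Sum.elim c d) t1 = b} ∩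
          {y | @Term.realize L ℕ (f y) _ (Sum.elim c d) t2 = b}) := by
      ext y
      simp only [mem_iUnion, mem_inter_iff]
      constructor
      · intro h
        have h1 : @Term.realize L ℕ (f y) _ (Sum.elim c d) t1 =
          @Term.realize L ℕ (f y) _ (Sum.elim c d) t2 := h
        exact ⟨_, rfl, h1.symm⟩
      · rintro ⟨b, h1, h2⟩
        show @Term.realize L ℕ (f y) _ (Sum.elim c d) t1 =
          @Term.realize L ℕ (f y) _ (Sum.elim c d) t2
        exact Eq.trans h1 (Eq.symm h2)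
    rw [e1]
    exact MeasurableSet.iUnion fun b => (meas_term hF _ _ b).inter (meas_term hF _ _ b)
  | @rel n l R ts =>
    have e1 : {y : Y | @BoundedFormula.Realize L ℕ (f y) _ _ (BoundedFormula.rel R ts) c d} =
        ⋃ v : Fin l → ℕ, ((⋂ i, {y | @Term.realize L ℕ (f y) _ (Sum.elim c d) (ts i) = v i}) ∩
          {y | @Structure.RelMap L ℕ (f y) l R v}) := by
      ext y
      simp only [mem_iUnion, mem_inter_iff, mem_iInter]
      constructor
      · intro h
        exact ⟨fun i => @Term.realize L ℕ (f y) _ (Sum.elim c d) (ts i), fun i => rfl, h⟩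
      · rintro ⟨v, h1, h2⟩
        have h3 : (fun i => @Term.realize L ℕ (f y) _ (Sum.elim c d) (ts i)) = v := funext h1
        show @Structure.RelMap L ℕ (f y) l R
          (fun i => @Term.realize L ℕ (f y) _ (Sum.elim c d) (ts i))
        rw [h3]
        exact h2
    rw [e1]
    exact MeasurableSet.iUnion fun v => (MeasurableSet.iInter fun i =>
      meas_term hF _ _ (v i)).inter (hf l R v)
  | @imp n f1 f2 h1 h2 =>
    have e1 : {y : Y | @BoundedFormula.Realize L ℕ (f y) _ _ (f1.imp f2) c d} =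
        {y | @BoundedFormula.Realize L ℕ (f y) _ _ f1 c d}ᶜ ∪
          {y | @BoundedFormula.Realize L ℕ (f y) _ _ f2 c d} := by
      ext y
      show (_ → _) ↔ (¬ _) ∨ _
      exact imp_iff_not_or
    rw [e1]
    exact (h1 d).compl.union (h2 d)
  | @all n g h =>
    have e1 : {y : Y | @BoundedFormula.Realize L ℕ (f y) _ _ g.all c d} =
        ⋂ k : ℕ, {y | @BoundedFormula.Realize L ℕ (f y) _ _ g c (Fin.snoc d k)} := by
      ext y
      rw [mem_iInter]
      exact Iff.rfl
    rw [e1]
    exact MeasurableSet.iInter fun k => h (Fin.snoc d k)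

end meas

/-- satisfaction is measurable in the sigma-algebra of structures -/
theorem meas_SM {β : Type} (φ : L.Formula β) (c : β → ℕ) :
    @MeasurableSet _ (SM L) {S : L.Structure ℕ | @Formula.Realize L ℕ S _ φ c} := by
  let _ := SM L
  refine meas_realize (Y := L.Structure ℕ) (f := id) (fun n F v b => ?_) (fun n R v => ?_) φ c _
  · exact MeasurableSpace.measurableSet_generateFrom (Or.inr ⟨n, F, v, b, rfl⟩)
  · exact MeasurableSpace.measurableSet_generateFrom (Or.inl ⟨n, R, v, rfl⟩)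

variable {M : Type} {n : ℕ}

/-- the relation defined by `φ` -/
def leS (φ : L.Formula (Fin n ⊕ Fin 2)) (S : L.Structure ℕ) (p : Fin n → ℕ) (x y : ℕ) : Prop :=
  @Formula.Realize L ℕ S _ φ (Sum.elim p ![x, y])

open Classical in
/-- the element of a singleton -/
noncomputable def sg (d : M) (s : Set M) : M := if h : ∃ c, s = {c} then h.choose else d

theorem sg_eq (d c : M) : sg d {c} = c := by
  have h : ∃ c' : M, ({c} : Set M) = {c'} := ⟨c, rfl⟩
  unfold sg
  rw [dif_pos h]
  exact (singleton_eq_singleton_iff.1 h.choose_spec).symm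

/-- the values for which `ψ` holds -/
def vs (ψ : M → L.Formula (Fin n ⊕ Fin 1)) (S : L.Structure ℕ) (p : Fin n → ℕ) (x : ℕ) : Set M :=
  {c | @Formula.Realize L ℕ S _ (ψ c) (Sum.elim p ![x])}

/-- the map defined by `ψ` -/
noncomputable def muS (d : M) (ψ : M → L.Formula (Fin n ⊕ Fin 1)) (S : L.Structure ℕ)
    (p : Fin n → ℕ) (x : ℕ) : M := sg d (vs ψ S p x)

theorem leS_dec {φ : L.Formula (Fin n ⊕ Fin 2)} {ψ : M → L.Formula (Fin n ⊕ Fin 1)}
    {S : L.Structure ℕ} {p : Fin n → ℕ} {bo : BooleanAlgebra ℕ} {mu : ℕ → M}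
    (h : Dec S p φ ψ bo mu) : leS φ S p = bo.le := by
  funext x y
  exact propext (h.le ![x, y])

theorem muS_dec {φ : L.Formula (Fin n ⊕ Fin 2)} {ψ : M → L.Formula (Fin n ⊕ Fin 1)}
    {S : L.Structure ℕ} {p : Fin n → ℕ} {bo : BooleanAlgebra ℕ} {mu : ℕ → M}
    (h : Dec S p φ ψ bo mu) (d : M) : muS d ψ S p = mu := by
  funext x
  have e : vs ψ S p x = {mu x} := by
    ext c
    refine (h.val c ![x]).trans ?_
    rw [mem_singleton_iff]
    exact eq_comm
  unfold muS
  rw [e, sg_eq]

theorem meas_le (φ : L.Formula (Fin n ⊕ Fin 2)) (p : Fin n → ℕ) (x y : ℕ) :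
    @MeasurableSet _ (SM L) {S : L.Structure ℕ | leS φ S p x y} := meas_SM φ _

theorem meas_mu [Finite M] (d : M) (ψ : M → L.Formula (Fin n ⊕ Fin 1)) (p : Fin n → ℕ) (x : ℕ)
    (v : M) : @MeasurableSet _ (SM L) {S : L.Structure ℕ | muS d ψ S p x = v} := by
  let _ := SM L
  have h1 : ∀ s : Set M, MeasurableSet {S : L.Structure ℕ | vs ψ S p x = s} := by
    intro s
    have e1 : {S : L.Structure ℕ | vs ψ S p x = s} =
        ⋂ c : M, {S : L.Structure ℕ | c ∈ vs ψ S p x ↔ c ∈ s} := by
      ext S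
      rw [mem_iInter]
      exact Set.ext_iff
    rw [e1]
    refine MeasurableSet.iInter fun c => ?_
    have h2 : MeasurableSet {S : L.Structure ℕ | c ∈ vs ψ S p x} := meas_SM (ψ c) _
    by_cases hc : c ∈ s
    · have e2 : {S : L.Structure ℕ | c ∈ vs ψ S p x ↔ c ∈ s} = {S | c ∈ vs ψ S p x} := by
        ext S
        exact iff_true_right hc
      rw [e2]
      exact h2
    · have e2 : {S : L.Structure ℕ | c ∈ vs ψ S p x ↔ c ∈ s} = {S | c ∈ vs ψ S p x}ᶜ := by
        ext S
        exact iff_false_right hc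
      rw [e2]
      exact h2.compl
  have e3 : {S : L.Structure ℕ | muS d ψ S p x = v} =
      ⋃ s : {s : Set M // sg d s = v}, {S : L.Structure ℕ | vs ψ S p x = s.1} := by
    ext S
    rw [mem_iUnion]
    constructor
    · intro h
      exact ⟨⟨vs ψ S p x, h⟩, rfl⟩
    · rintro ⟨⟨s, hs⟩, h⟩
      have h' : vs ψ S p x = s := h
      show sg d (vs ψ S p x) = v
      rw [h']
      exact hs
  rw [e3]
  exact MeasurableSet.iUnion fun s => h1 s.1

theorem dif_iso {le le' : ℕ → ℕ → Prop} (e : ℕ ≃ ℕ) (h : ∀ x y, le' (e x) (e y) ↔ le x y)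
    (a b c : ℕ) : Dif le' (e a) (e b) (e c) ↔ Dif le a b c := by
  unfold Dif
  rw [h, h]
  refine and_congr_right fun _ => and_congr_right fun _ => ?_
  constructor
  · rintro ⟨h1, h2⟩
    refine ⟨fun d hd hd' f => ?_, fun d hd hd' => ?_⟩
    · exact (h _ _).1 (h1 (e d) ((h _ _).2 hd) ((h _ _).2 hd') (e f))
    · exact (h _ _).1 (h2 (e d) ((h _ _).2 hd) ((h _ _).2 hd'))
  · rintro ⟨h1, h2⟩
    refine ⟨fun d => ?_, fun d => ?_⟩
    · obtain ⟨d, rfl⟩ := e.surjective d
      intro hd hd' f
      obtain ⟨f, rfl⟩ := e.surjective f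
      exact (h _ _).2 (h1 d ((h _ _).1 hd) ((h _ _).1 hd') f)
    · obtain ⟨d, rfl⟩ := e.surjective d
      intro hd hd'
      exact (h _ _).2 (h2 d ((h _ _).1 hd) ((h _ _).1 hd'))

theorem tpc_iso {le le' : ℕ → ℕ → Prop} {mu mu' : ℕ → M} (e : ℕ ≃ ℕ)
    (h : ∀ x y, le' (e x) (e y) ↔ le x y) (h2 : ∀ x, mu' (e x) = mu x) :
    ∀ k a, tpc le' mu' k (e a) = tpc le mu k a
  | 0, a => by
    refine propext ⟨fun h1 b => (h _ _).1 (h1 (e b)), fun h1 b => ?_⟩
    obtain ⟨b, rfl⟩ := e.surjective b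
    exact (h _ _).2 (h1 b)
  | k + 1, a => by
    refine Prod.ext (h2 a) (Set.ext fun q => ?_)
    constructor
    · rintro ⟨b, c, h3, rfl⟩
      obtain ⟨b, rfl⟩ := e.surjective b
      obtain ⟨c, rfl⟩ := e.surjective c
      exact ⟨b, c, (dif_iso e h a b c).1 h3, by rw [tpc_iso e h h2 k b, tpc_iso e h h2 k c]⟩
    · rintro ⟨b, c, h3, rfl⟩
      exact ⟨e b, e c, (dif_iso e h a b c).2 h3, by rw [tpc_iso e h h2 k b, tpc_iso e h h2 k c]⟩

/-- the parameters and the element coded by a number -/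
noncomputable def dm (n : ℕ) : ℕ → (Fin n → ℕ) × ℕ := (exists_surjective_nat _).choose

theorem dm_surj (n : ℕ) : Function.Surjective (dm n) := (exists_surjective_nat _).choose_spec

open Classical in
/-- the code of a sequence of types -/
noncomputable def cd (j : ∀ k, TP M k → ℕ) (t : FT M) (i : ℕ) : Bool :=
  decide (j i.unpair.1 (t i.unpair.1) = i.unpair.2)

theorem cd_inj {j : ∀ k, TP M k → ℕ} (hj : ∀ k, Function.Injective (j k)) :
    Function.Injective (cd j) := by
  intro t t' h
  funext k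
  apply hj k
  have h1 := congrFun h (Nat.pair k (j k (t k)))
  unfold cd at h1
  rw [Nat.unpair_pair, decide_eq_decide] at h1
  exact (h1.1 rfl).symm

/-- the bijection of an isomorphism -/
def tE (S S' : L.Structure ℕ) (e : @FirstOrder.Language.Equiv L ℕ ℕ S S') : ℕ ≃ ℕ :=
  @FirstOrder.Language.Equiv.toEquiv L ℕ ℕ S S' e

theorem tE_realize {β : Type} (φ : L.Formula β) (S S' : L.Structure ℕ)
    (e : @FirstOrder.Language.Equiv L ℕ ℕ S S') (v : β → ℕ) :
    @Formula.Realize L ℕ S' _ φ (fun i => tE S S' e (v i)) ↔ @Formula.Realize L ℕ S _ φ v :=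
  @StrongHomClass.realize_formula L ℕ ℕ S S' _ _ _ _ e φ v

theorem leS_iso {φ : L.Formula (Fin n ⊕ Fin 2)} {S S' : L.Structure ℕ}
    (e : @FirstOrder.Language.Equiv L ℕ ℕ S S') (p : Fin n → ℕ) (x y : ℕ) :
    leS φ S' (fun i => tE S S' e (p i)) (tE S S' e x) (tE S S' e y) ↔ leS φ S p x y := by
  have h := tE_realize φ S S' e (Sum.elim p ![x, y])
  have h1 : (fun i => tE S S' e (Sum.elim p ![x, y] i)) = Sum.elim (fun i => tE S S' e (p i))
      ![tE S S' e x, tE S S' e y] := by
    funext i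
    rcases i with i | i
    · rfl
    · fin_cases i <;> rfl
  rw [h1] at h
  exact h

theorem muS_iso {ψ : M → L.Formula (Fin n ⊕ Fin 1)} {S S' : L.Structure ℕ} (d : M)
    (e : @FirstOrder.Language.Equiv L ℕ ℕ S S') (p : Fin n → ℕ) (x : ℕ) :
    muS d ψ S' (fun i => tE S S' e (p i)) (tE S S' e x) = muS d ψ S p x := by
  have h1 : vs ψ S' (fun i => tE S S' e (p i)) (tE S S' e x) = vs ψ S p x := by
    ext c
    have h := tE_realize (ψ c) S S' e (Sum.elim p ![x])
    have h1 : (fun i => tE S S' e (Sum.elim p ![x] i)) = Sum.elim (fun i => tE S S' e (p i))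
        ![tE S S' e x] := by
      funext i
      rcases i with i | i
      · rfl
      · fin_cases i <;> rfl
    rw [h1] at h
    exact h
  unfold muS
  rw [h1]

theorem ST2 (SIL : S_SIL) (MEA : S_MEA) : S_ST2 := by
  intro L hL T M _ _ n φ ψ hP
  have hj : ∀ k, ∃ j : TP M k → ℕ, Function.Injective j := fun k => Countable.exists_injective_nat _
  choose j hj using hj
  let V : L.Structure ℕ → ℕ → (ℕ → Bool) := fun S m =>
    cd j (fun k => tpc (leS φ S (dm n m).1) (muS 0 ψ S (dm n m).1) k (dm n m).2)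
  have hV : ∀ m k, @MeasurableSet _ (SM L) {S : L.Structure ℕ | V S m k = true} := by
    intro m i
    let _ := SM L
    have e1 : {S : L.Structure ℕ | V S m i = true} =
        {S : L.Structure ℕ | j i.unpair.1 (tpc (leS φ S (dm n m).1) (muS 0 ψ S (dm n m).1)
          i.unpair.1 (dm n m).2) = i.unpair.2} := by
      ext S
      exact decide_eq_true_iff
    rw [e1]
    by_cases hσ : ∃ σ, j i.unpair.1 σ = i.unpair.2
    · obtain ⟨σ, hσ⟩ := hσ
      have e2 : {S : L.Structure ℕ | j i.unpair.1 (tpc (leS φ S (dm n m).1)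
          (muS 0 ψ S (dm n m).1) i.unpair.1 (dm n m).2) = i.unpair.2} =
          {S : L.Structure ℕ | tpc (leS φ S (dm n m).1) (muS 0 ψ S (dm n m).1)
            i.unpair.1 (dm n m).2 = σ} := by
        ext S
        rw [mem_ofPred_eq, mem_ofPred_eq, ← hσ]
        exact (hj _).eq_iff
      rw [e2]
      exact (MEA M).2 (L.Structure ℕ) (fun S => leS φ S (dm n m).1)
        (fun S => muS 0 ψ S (dm n m).1) (fun a b => meas_le φ _ a b)
        (fun a v => meas_mu 0 ψ _ a v) _ _ σ
    · have e2 : {S : L.Structure ℕ | j i.unpair.1 (tpc (leS φ S (dm n m).1)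
          (muS 0 ψ S (dm n m).1) i.unpair.1 (dm n m).2) = i.unpair.2} = ∅ := by
        ext S
        exact iff_of_false (fun h => hσ ⟨_, h⟩) (notMem_empty S)
      rw [e2]
      exact MeasurableSet.empty
  have hI : ∀ S S' : L.Structure ℕ, Nonempty (@FirstOrder.Language.Equiv L ℕ ℕ S S') →
      ∀ m, ∃ m', V S' m' = V S m := by
    rintro S S' ⟨e⟩ m
    obtain ⟨m', hm'⟩ := dm_surj n (fun i => tE S S' e ((dm n m).1 i), tE S S' e (dm n m).2)
    refine ⟨m', ?_⟩
    show cd j _ = cd j _
    congr 1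
    funext k
    rw [hm']
    exact tpc_iso (tE S S' e) (fun x y => leS_iso e _ x y) (fun x => muS_iso 0 e _ x) k _
  have hc := SIL L hL T V hV hI hP
  refine Set.MapsTo.countable_of_injOn (f := cd j) ?_ (cd_inj hj).injOn hc
  rintro t ⟨S, p, bo, mu, a, hT, hD, hA, rfl⟩
  obtain ⟨m, hm⟩ := dm_surj n (p, a)
  refine ⟨S, hT, m, ?_⟩
  show cd j _ = cd j _
  congr 1
  funext k
  rw [hm]
  show tpc (leS φ S p) (muS 0 ψ S p) k a = _
  rw [leS_dec hD, muS_dec hD]
  exact (MEA M).1 bo mu k a

end Pool.Agent.N227.VB.ST2
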